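import Mathlib

set_option autoImplicit false
open Cardinal Set

namespace Pool.Agent.Results.MP_d40573_lc.Approachability

/-- The polarized partition relation of Q1 at the cardinal `l`, on a set `α` of size `l⁺`
(the same form as in the frozen statement of the problem). -/
def PolarizedRelation (l : Cardinal.{0}) (α : Type) : Prop :=
  ∀ Δ : Set (α × α),
    (∃ H₁ H₂ : Set α, #H₁ = Order.succ l ∧ #H₂ = l ∧ ∀ x ∈ H₁, ∀ y ∈ H₂, (x, y) ∈ Δ) ∨
    (∃ H₁ H₂ : Set α, #H₁ = Cardinal.aleph 1 ∧ #H₂ = l ∧ ∀ x ∈ H₁, ∀ y ∈ H₂, (x, y) ∉ Δ)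

/-- `m` is normal: for each `n` there is `μ < l` such that every `x` has at most `μ`
predecessors `c` with `m c x ≤ n`. -/
def Normal (l : Cardinal.{0}) {α : Type} [LinearOrder α] (m : α → α → ℕ) : Prop :=
  ∀ n : ℕ, ∃ μ : Cardinal.{0}, μ < l ∧ ∀ x : α, #{c : α | c < x ∧ m c x ≤ n} ≤ μ

section Partition

/-- An enumeration of the subsets of size `l`. -/
theorem exists_enum {l : Cardinal.{0}} {α : Type} (hl : ℵ₀ < l) (h2 : (2 : Cardinal.{0}) ^ l = Order.succ l)
    (hα : #α = Order.succ l) :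
    ∃ X : α → Set α, (∀ b, #(X b) = l) ∧ ∀ H : Set α, #H = l → ∃ b, X b = H := by
  have hinf : Infinite α := by
    rw [Cardinal.infinite_iff, hα]
    exact hl.le.trans (Order.le_succ l)
  have hcount : #{t : Set α // #t = l} ≤ #α := by
    have h1 : #{t : Set α // #t = l} ≤ #{t : Set α // #t ≤ l} := by
      refine ⟨Function.Embedding.subtypeMap (Function.Embedding.refl _) ?_⟩
      intro t ht
      exact le_of_eq ht
    refine h1.trans ((mk_bounded_set_le_of_infinite α l).trans ?_)
    rw [hα, ← h2, ← Cardinal.power_mul, Cardinal.mul_eq_self hl.le]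
  obtain ⟨t₀, ht₀⟩ : ∃ t : Set α, #t = l := by
    apply Cardinal.le_mk_iff_exists_set.1
    rw [hα]
    exact Order.le_succ l
  have : Nonempty {t : Set α // #t = l} := ⟨⟨t₀, ht₀⟩⟩
  obtain ⟨e⟩ := hcount
  have hsurj := Function.invFun_surjective e.injective
  refine ⟨fun b => (Function.invFun e b).1, fun b => (Function.invFun e b).2, ?_⟩
  intro H hH
  obtain ⟨b, hb⟩ := hsurj ⟨H, hH⟩
  refine ⟨b, ?_⟩
  show (Function.invFun e b).1 = H
  rw [hb]

variable {l : Cardinal.{0}} {α : Type} [LinearOrder α] [WellFoundedLT α]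

/-- The recursive choice. -/
theorem exists_choice (hl : ℵ₀ < l) (m : α → α → ℕ) (hm : Normal l m)
    (X : α → Set α) (hX : ∀ b, #(X b) = l) :
    ∃ f : α → α → α, ∀ a b, b < a → f a b ∈ X b ∧
      ∀ c, c < a → ∀ b', b' < c → m c a ≤ m b a → m b' c ≤ m b a → f a b ≠ f c b' := by
  classical
  let F : ∀ a : α, (∀ c, c < a → α → α) → α → α := fun a rec b =>
    if h : ∃ y, y ∈ X b ∧ ∀ c (hc : c < a), ∀ b', b' < c → m c a ≤ m b a →
        m b' c ≤ m b a → y ≠ rec c hc b' then h.choose else b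
  let f : α → α → α := WellFounded.fix (wellFounded_lt (α := α)) F
  have hf : ∀ a, f a = F a (fun c _ => f c) := fun a =>
    WellFounded.fix_eq (wellFounded_lt (α := α)) F a
  refine ⟨f, ?_⟩
  intro a b hb
  have hex : ∃ y, y ∈ X b ∧ ∀ c (_ : c < a), ∀ b', b' < c → m c a ≤ m b a →
        m b' c ≤ m b a → y ≠ f c b' := by
    obtain ⟨μ, hμ, hcard⟩ := hm (m b a)
    by_contra hcon
    push Not at hcon
    have hsub : X b ⊆ ⋃ c ∈ {c : α | c < a ∧ m c a ≤ m b a},
        (f c) '' {b' : α | b' < c ∧ m b' c ≤ m b a} := by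
      intro y hy
      obtain ⟨c, hc, b', hb', h1, h2, h3⟩ := hcon y hy
      simp only [Set.mem_iUnion]
      exact ⟨c, ⟨hc, h1⟩, b', ⟨hb', h2⟩, h3.symm⟩
    have h1 := (Cardinal.mk_le_mk_of_subset hsub).trans (Cardinal.mk_biUnion_le _ _)
    rw [hX b] at h1
    have h2 : #{c : α | c < a ∧ m c a ≤ m b a} *
        (⨆ x : {c : α | c < a ∧ m c a ≤ m b a},
          #((f x.1) '' {b' : α | b' < x.1 ∧ m b' x.1 ≤ m b a})) ≤ μ * μ := by
      refine mul_le_mul' (hcard a) ?_
      refine ciSup_le' ?_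
      intro x
      exact Cardinal.mk_image_le.trans (hcard x.1)
    exact absurd (h1.trans h2) (not_le.2 (Cardinal.mul_lt_of_lt hl.le hμ hμ))
  have hval : f a b = hex.choose := by
    rw [hf a]
    exact dif_pos hex
  rw [hval]
  exact ⟨hex.choose_spec.1, fun c hc b' hb' h1 h2 => hex.choose_spec.2 c hc b' hb' h1 h2⟩

/-- Every infinite subset of a well-ordered set contains the range of an increasing sequence. -/
theorem exists_increasing_seq (J : Set α) (hJ : J.Infinite) :
    ∃ j : ℕ → α, StrictMono j ∧ ∀ k, j k ∈ J := by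
  have := hJ.to_subtype
  let e : ℕ ↪ J := Infinite.natEmbedding J
  obtain ⟨g, hg | hg⟩ := exists_increasing_or_nonincreasing_subseq (fun x y : α => x < y)
    (fun k => (e k : α))
  · exact ⟨fun k => (e (g k) : α), fun k k' hk => hg k k' hk, fun k => (e (g k)).2⟩
  · exfalso
    have hdec : ∀ k k', k < k' → ((e (g k') : J) : α) < ((e (g k) : J) : α) := by
      intro k k' hk
      refine lt_of_le_of_ne (not_lt.1 (hg k k' hk)) ?_
      intro h
      have h1 := g.injective (e.injective (Subtype.ext h))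
      omega
    have hw : WellFounded (fun x y : α => x < y) := wellFounded_lt
    rw [wellFounded_iff_isEmpty_descending_chain] at hw
    exact hw.false ⟨fun k => ((e (g k) : J) : α), fun k => hdec k (k + 1) (Nat.lt_succ_self k)⟩

/-- The partition attached to a normal colouring. -/
theorem exists_partition (hl : ℵ₀ < l) (h2 : (2 : Cardinal.{0}) ^ l = Order.succ l)
    (hα : #α = Order.succ l) (hI : ∀ x : α, #(Iio x) ≤ l) (m : α → α → ℕ) (hm : Normal l m) :
    ∃ Δ : Set (α × α),
      (∀ H₁ H₂ : Set α, #H₁ = Order.succ l → #H₂ = l → ∃ x ∈ H₁, ∃ y ∈ H₂, (x, y) ∉ Δ) ∧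
      (∀ n : ℕ, ∃ μ : Cardinal.{0}, μ < l ∧ ∀ J : Set α, J.Infinite →
        (∀ x ∈ J, ∀ y ∈ J, x < y → m x y ≤ n) → #{y : α | ∀ x ∈ J, (x, y) ∉ Δ} ≤ μ) := by
  obtain ⟨X, hX, hXs⟩ := exists_enum hl h2 hα
  obtain ⟨f, hf⟩ := exists_choice hl m hm X hX
  refine ⟨{p : α × α | ¬ ∃ b, b < p.1 ∧ f p.1 b = p.2}, ?_, ?_⟩
  · intro H₁ H₂ h1 h2'
    obtain ⟨b, hb⟩ := hXs H₂ h2'
    have hex : ∃ x ∈ H₁, b < x := by
      by_contra hcon
      push Not at hcon
      have hsub : H₁ ⊆ insert b (Iio b) := by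
        intro x hx
        rcases (hcon x hx).lt_or_eq with h | h
        · exact Or.inr h
        · exact Or.inl h
      have h3 : #H₁ ≤ l := by
        refine (Cardinal.mk_le_mk_of_subset hsub).trans (Cardinal.mk_insert_le.trans ?_)
        refine (add_le_add_left (hI b) 1).trans ?_
        rw [Cardinal.add_one_eq hl.le]
      rw [h1] at h3
      exact absurd h3 (not_le.2 (Order.lt_succ l))
    obtain ⟨x, hx, hbx⟩ := hex
    refine ⟨x, hx, f x b, ?_, ?_⟩
    · rw [← hb]
      exact (hf x b hbx).1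
    · simp only [Set.mem_ofPred_eq, not_not]
      exact ⟨b, hbx, rfl⟩
  · intro n
    obtain ⟨μ, hμ, hcard⟩ := hm n
    refine ⟨ℵ₀ * μ, Cardinal.mul_lt_of_lt hl.le hl hμ, ?_⟩
    intro J hJ hJm
    obtain ⟨j, hj, hjJ⟩ := exists_increasing_seq J hJ
    have hsub : {y : α | ∀ x ∈ J, (x, y) ∉ {p : α × α | ¬ ∃ b, b < p.1 ∧ f p.1 b = p.2}} ⊆
        ⋃ k : ℕ, (f (j k)) '' {b : α | b < j k ∧ m b (j k) ≤ n} := by
      intro y hy
      by_contra hcon
      simp only [Set.mem_iUnion, not_exists] at hcon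
      have hy' : ∀ k, ∃ b, b < j k ∧ f (j k) b = y := by
        intro k
        have := hy (j k) (hjJ k)
        simp only [Set.mem_ofPred_eq, not_not] at this
        exact this
      -- the least level
      have hlev : ∀ k, ∃ t, (∃ b, b < j k ∧ f (j k) b = y ∧ m b (j k) = t) ∧
          ∀ b, b < j k → f (j k) b = y → t ≤ m b (j k) := by
        intro k
        classical
        have hne : ∃ t, ∃ b, b < j k ∧ f (j k) b = y ∧ m b (j k) = t := by
          obtain ⟨b, hb1, hb2⟩ := hy' k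
          exact ⟨_, b, hb1, hb2, rfl⟩
        refine ⟨Nat.find hne, Nat.find_spec hne, ?_⟩
        intro b hb1 hb2
        exact Nat.find_min' hne ⟨b, hb1, hb2, rfl⟩
      choose L hL1 hL2 using hlev
      have hLn : ∀ k, n < L k := by
        intro k
        obtain ⟨b, hb1, hb2, hb3⟩ := hL1 k
        by_contra hle
        rw [not_lt] at hle
        exact hcon k ⟨b, ⟨hb1, hb3.le.trans hle⟩, hb2⟩
      have hdec : ∀ k, L (k + 1) < L k := by
        intro k
        by_contra hle
        rw [not_lt] at hle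
        obtain ⟨b, hb1, hb2, hb3⟩ := hL1 (k + 1)
        obtain ⟨b', hb1', hb2', hb3'⟩ := hL1 k
        have hlt : j k < j (k + 1) := hj (Nat.lt_succ_self k)
        have h1 : m (j k) (j (k + 1)) ≤ m b (j (k + 1)) := by
          rw [hb3]
          exact (hJm _ (hjJ k) _ (hjJ (k + 1)) hlt).trans (hLn (k + 1)).le
        have h2'' : m b' (j k) ≤ m b (j (k + 1)) := by
          rw [hb3, hb3']
          exact hle
        exact (hf (j (k + 1)) b hb1).2 (j k) hlt b' hb1' h1 h2'' (hb2.trans hb2'.symm)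
      have hbound : ∀ k, L k + k ≤ L 0 := by
        intro k
        induction k with
        | zero => simp
        | succ k ih =>
          have := hdec k
          omega
      have := hbound (L 0 + 1)
      omega
    refine (Cardinal.mk_le_mk_of_subset hsub).trans ?_
    have h1 := Cardinal.mk_iUnion_le_lift (fun k : ℕ => (f (j k)) '' {b : α | b < j k ∧ m b (j k) ≤ n})
    rw [Cardinal.lift_id, Cardinal.lift_id, Cardinal.mk_nat] at h1
    refine h1.trans (mul_le_mul' le_rfl (ciSup_le' ?_))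
    intro k
    rw [Cardinal.lift_id]
    exact Cardinal.mk_image_le.trans (hcard (j k))

end Partition

/-- The well-ordered set of order type `ω₁`. -/
abbrev W : Type := (Cardinal.aleph 1 : Cardinal.{0}).ord.ToType

/-- `δ` is approachable with respect to the sequence `a` (and has cofinality `ω₁`): there is an
increasing `ω₁`-sequence `g` with supremum `δ` all of whose proper initial segments are among the
sets `a i` with `i < δ`. -/
def ApproachableAt {α : Type} [LinearOrder α] (a : α → Set α) (δ : α) : Prop :=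
  ∃ g : (Cardinal.aleph 1 : Cardinal.{0}).ord.ToType → α, StrictMono g ∧
    IsLUB (Set.range g) δ ∧ ∀ ν, ∃ i, i < δ ∧ a i = g '' Set.Iio ν

/-- `E` is closed and unbounded. -/
def IsClubSet {α : Type} [LinearOrder α] (E : Set α) : Prop :=
  (∀ x : α, ∃ e ∈ E, x < e) ∧
    ∀ δ : α, (∃ x, x < δ) → (∀ x < δ, ∃ e ∈ E, x < e ∧ e < δ) → δ ∈ E

section OmegaOne

theorem mk_W : #W = Cardinal.aleph 1 := by
  rw [Cardinal.mk_toType, Cardinal.card_ord]

theorem uncountable_W : ¬ (Set.univ : Set W).Countable := by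
  intro h
  have h1 : #W ≤ ℵ₀ := by
    rw [← Cardinal.mk_univ]
    exact Cardinal.le_aleph0_iff_set_countable.2 h
  rw [mk_W] at h1
  exact absurd h1 (not_le.2 Cardinal.aleph0_lt_aleph_one)

theorem countable_Iio (w : W) : (Set.Iio w).Countable := by
  rw [← Cardinal.le_aleph0_iff_set_countable]
  have h : #(Set.Iio w) < #W := by
    apply Cardinal.mk_Iio_lt
    rw [mk_W]
    simp
  have h2 : #(Set.Iio w) < Order.succ ℵ₀ := by
    refine h.trans_eq ?_
    rw [mk_W, ← Cardinal.succ_aleph0]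
  exact Order.lt_succ_iff.1 h2

theorem exists_gt_of_uncountable (U : Set W) (hU : ¬ U.Countable) (t : W) : ∃ u ∈ U, t < u := by
  by_contra hcon
  push Not at hcon
  apply hU
  refine Set.Countable.mono (s₂ := insert t (Set.Iio t)) ?_ ((countable_Iio t).insert t)
  intro u hu
  rcases (hcon u hu).lt_or_eq with h | h
  · exact Or.inr h
  · exact Or.inl h

theorem exists_uncountable_fiber (U : Set W) (hU : ¬ U.Countable) (F : W → ℕ) :
    ∃ n, ¬ {w : W | w ∈ U ∧ F w = n}.Countable := by
  by_contra hcon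
  push Not at hcon
  apply hU
  refine Set.Countable.mono ?_ (Set.countable_iUnion hcon)
  intro u hu
  exact Set.mem_iUnion.2 ⟨F u, hu, rfl⟩

end OmegaOne

section Colouring

theorem transGen_card {α : Type} (R : α → α → Prop) (ν : Cardinal.{0}) (hν : ℵ₀ ≤ ν)
    (h : ∀ x, #{c : α | R c x} ≤ ν) (x : α) : #{c : α | Relation.TransGen R c x} ≤ ν := by
  let S : ℕ → Set α := fun k => Nat.rec {c : α | R c x} (fun _ T => ⋃ y ∈ T, {c : α | R c y}) k
  have hS0 : S 0 = {c : α | R c x} := rfl
  have hS1 : ∀ k, S (k + 1) = ⋃ y ∈ S k, {c : α | R c y} := fun k => rfl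
  have hcard : ∀ k, #(↥(S k)) ≤ ν := by
    intro k
    induction k with
    | zero => rw [hS0]; exact h x
    | succ k ih =>
      rw [hS1]
      refine (Cardinal.mk_biUnion_le _ _).trans ?_
      refine (mul_le_mul' ih (ciSup_le' (a := ν) ?_)).trans ?_
      · intro y
        exact h y.1
      · rw [Cardinal.mul_eq_self hν]
  have hsub : {c : α | Relation.TransGen R c x} ⊆ ⋃ k : ℕ, S k := by
    intro c hc
    have hc' : Relation.TransGen R c x := hc
    induction hc' using Relation.TransGen.head_induction_on with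
    | single h1 => exact Set.mem_iUnion.2 ⟨0, h1⟩
    | head h1 h2 ih =>
      obtain ⟨k, hk⟩ := Set.mem_iUnion.1 (ih h2)
      refine Set.mem_iUnion.2 ⟨k + 1, ?_⟩
      rw [hS1]
      simp only [Set.mem_iUnion]
      exact ⟨_, hk, h1⟩
  refine (Cardinal.mk_le_mk_of_subset hsub).trans ?_
  have h1 := Cardinal.mk_iUnion_le_lift S
  rw [Cardinal.lift_id, Cardinal.lift_id, Cardinal.mk_nat] at h1
  refine h1.trans ((mul_le_mul' le_rfl (ciSup_le' (a := ν) ?_)).trans ?_)
  · intro k
    rw [Cardinal.lift_id]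
    exact hcard k
  · exact (mul_le_mul' hν le_rfl).trans (Cardinal.mul_eq_self hν).le

/-- A set of size `l` which is the increasing union of countably many smaller sets. -/
theorem exists_rho (l : Cardinal.{0}) (hl : ℵ₀ < l) (hcof : l.ord.cof = ℵ₀) :
    ∃ (L : Type) (ρ : L → ℕ), #L = l ∧ ∀ n, #{z : L | ρ z ≤ n} < l := by
  have hmk : #(l.ord.ToType) = l := by rw [Cardinal.mk_toType, Cardinal.card_ord]
  have hc : Order.cof l.ord.ToType = ℵ₀ := by rw [Ordinal.cof_toType, hcof]
  obtain ⟨s, hs, hs'⟩ := Order.exists_cof_eq l.ord.ToType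
  rw [hc] at hs'
  have hcount : s.Countable := Cardinal.le_aleph0_iff_set_countable.1 hs'.le
  have hne : s.Nonempty := by
    rw [Set.nonempty_iff_ne_empty]
    rintro rfl
    rw [Cardinal.mk_eq_zero] at hs'
    exact Cardinal.aleph0_ne_zero hs'.symm
  obtain ⟨f, hf⟩ := hcount.exists_eq_range hne
  have hex : ∀ z : l.ord.ToType, ∃ n, z ≤ f n := by
    intro z
    obtain ⟨y, hy, hzy⟩ := hs z
    rw [hf] at hy
    obtain ⟨n, rfl⟩ := hy
    exact ⟨n, hzy⟩
  classical
  refine ⟨l.ord.ToType, fun z => Nat.find (hex z), hmk, ?_⟩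
  intro n
  have hIic : ∀ z : l.ord.ToType, #(Set.Iic z) < l := by
    intro z
    have h : #(Set.Iio z) < l := by
      have := Cardinal.mk_Iio_lt z (by rw [hmk]; simp)
      rwa [hmk] at this
    have h2 : #(Set.Iic z) ≤ #(Set.Iio z) + 1 := by
      have : Set.Iic z ⊆ insert z (Set.Iio z) := by
        intro u hu
        rcases (show u ≤ z from hu).lt_or_eq with h | h
        · exact Or.inr h
        · exact Or.inl h
      exact (Cardinal.mk_le_mk_of_subset this).trans Cardinal.mk_insert_le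
    exact h2.trans_lt (Cardinal.add_lt_of_lt hl.le h (Cardinal.one_lt_aleph0.trans hl))
  induction n with
  | zero =>
    refine lt_of_le_of_lt (Cardinal.mk_le_mk_of_subset ?_) (hIic (f 0))
    intro z hz
    have h1 : Nat.find (hex z) = 0 := Nat.le_zero.1 hz
    have h2 := Nat.find_spec (hex z)
    rwa [h1] at h2
  | succ n ih =>
    have hsub : {z : l.ord.ToType | Nat.find (hex z) ≤ n + 1} ⊆
        {z : l.ord.ToType | Nat.find (hex z) ≤ n} ∪ Set.Iic (f (n + 1)) := by
      intro z hz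
      have hz' : Nat.find (hex z) ≤ n + 1 := hz
      rcases Nat.lt_or_ge n (Nat.find (hex z)) with h | h
      · right
        have h1 : Nat.find (hex z) = n + 1 := by omega
        have h2 := Nat.find_spec (hex z)
        rwa [h1] at h2
      · left
        exact h
    refine lt_of_le_of_lt ((Cardinal.mk_le_mk_of_subset hsub).trans (Cardinal.mk_union_le _ _)) ?_
    exact Cardinal.add_lt_of_lt hl.le ih (hIic _)

/-- From a normal colouring `m₀`, a sequence `a` of subsets and a closed unbounded set `E` one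
gets a normal colouring `m ≤ m₀` such that every increasing `ω₁`-sequence whose supremum is not
in `E`, or is approachable with respect to `a`, has an infinite `m`-bounded set of values. -/
theorem exists_colouring {l : Cardinal.{0}} {α : Type} [LinearOrder α] [WellFoundedLT α]
    (hl : ℵ₀ < l) (hcof : l.ord.cof = ℵ₀) (hI : ∀ x : α, #(Set.Iio x) ≤ l)
    (m₀ : α → α → ℕ) (hm₀ : Normal l m₀) (a : α → Set α) (E : Set α) (hE : IsClubSet E) :
    ∃ m : α → α → ℕ, Normal l m ∧ (∀ c x, c < x → m c x ≤ m₀ c x) ∧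
      (∀ n c d x, c < d → d < x → m c d ≤ n → m d x ≤ n → m c x ≤ n) ∧
      ∀ (g : W → α) (δ : α), StrictMono g → IsLUB (Set.range g) δ →
        (δ ∉ E ∨ ApproachableAt a δ) →
        ∃ n, ∃ J : Set α, J ⊆ Set.range g ∧ J.Infinite ∧
          ∀ x ∈ J, ∀ y ∈ J, x < y → m x y ≤ n := by
  classical
  obtain ⟨L, ρ, hL, hρ⟩ := exists_rho l hl hcof
  have hLne : Nonempty L := by
    rw [← Cardinal.mk_ne_zero_iff, hL]
    exact (Cardinal.aleph0_pos.trans hl).ne'
  -- injections of the initial segments into `L`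
  have hinj : ∀ x : α, ∃ e : α → L, Set.InjOn e (Set.Iio x) := by
    intro x
    have h1 : #(Set.Iio x) ≤ #L := by rw [hL]; exact hI x
    obtain ⟨e⟩ := h1
    refine ⟨fun c => if h : c < x then e ⟨c, h⟩ else Classical.arbitrary L, ?_⟩
    intro c hc d hd hcd
    have hc' : c < x := hc
    have hd' : d < x := hd
    simp only [dif_pos hc', dif_pos hd'] at hcd
    exact congrArg Subtype.val (e.injective hcd)
  choose e he using hinj
  -- the next element of `E`
  have hnext : ∀ x : α, ∃ y, (y ∈ E ∧ x < y) ∧ ∀ z, z ∈ E → x < z → y ≤ z := by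
    intro x
    obtain ⟨z, hz, hxz⟩ := hE.1 x
    have hne : {z | z ∈ E ∧ x < z}.Nonempty := ⟨z, hz, hxz⟩
    have hmem : WellFounded.min wellFounded_lt _ hne ∈ {z | z ∈ E ∧ x < z} :=
      WellFounded.min_mem _ _ _
    refine ⟨WellFounded.min wellFounded_lt _ hne, hmem, ?_⟩
    intro z hz hxz
    exact not_lt.1 (WellFounded.not_lt_min _ _ (show z ∈ {z | z ∈ E ∧ x < z} from ⟨hz, hxz⟩))
  choose nx hnx hnx' using hnext
  let lev : α → α → ℕ := fun c x => ρ (e (nx x) c)
  have hlev : ∀ n x, #{c : α | c < x ∧ lev c x ≤ n} ≤ #{z : L | ρ z ≤ n} := by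
    intro n x
    refine Cardinal.mk_le_of_injective
      (f := fun c : {c : α | c < x ∧ lev c x ≤ n} =>
        (⟨e (nx x) c.1, c.2.2⟩ : {z : L | ρ z ≤ n})) ?_
    intro c d hcd
    have h1 : e (nx x) c.1 = e (nx x) d.1 := congrArg Subtype.val hcd
    exact Subtype.ext (he (nx x) (c.2.1.trans (hnx x).2) (d.2.1.trans (hnx x).2) h1)
  let Q : ℕ → α → α → Prop := fun n c x => c < x ∧ (lev c x ≤ n ∨ m₀ c x ≤ n ∨
    ∃ i, i < x ∧ lev i x ≤ n ∧ (a i).Countable ∧ c ∈ a i)
  have hQmono : ∀ n n', n ≤ n' → ∀ c x, Q n c x → Q n' c x := by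
    rintro n n' hn c x ⟨h1, h2⟩
    refine ⟨h1, ?_⟩
    rcases h2 with h2 | h2 | ⟨i, h2, h3, h4⟩
    · exact Or.inl (h2.trans hn)
    · exact Or.inr (Or.inl (h2.trans hn))
    · exact Or.inr (Or.inr ⟨i, h2, h3.trans hn, h4⟩)
  have hQcard : ∀ n, ∃ ν : Cardinal.{0}, ν < l ∧ ℵ₀ ≤ ν ∧ ∀ x, #{c : α | Q n c x} ≤ ν := by
    intro n
    obtain ⟨μ, hμ, hcard⟩ := hm₀ n
    refine ⟨max (max #{z : L | ρ z ≤ n} μ) ℵ₀, max_lt (max_lt (hρ n) hμ) hl, le_max_right _ _, ?_⟩
    intro x
    set ν := max (max #{z : L | ρ z ≤ n} μ) ℵ₀ with hν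
    have hνω : ℵ₀ ≤ ν := le_max_right _ _
    have hsub : {c : α | Q n c x} ⊆ ({c : α | c < x ∧ lev c x ≤ n} ∪ {c : α | c < x ∧ m₀ c x ≤ n}) ∪
        ⋃ i ∈ {i : α | i < x ∧ lev i x ≤ n}, (if (a i).Countable then a i else ∅) := by
      rintro c ⟨h1, h2⟩
      rcases h2 with h2 | h2 | ⟨i, h2, h3, h4, h5⟩
      · exact Or.inl (Or.inl ⟨h1, h2⟩)
      · exact Or.inl (Or.inr ⟨h1, h2⟩)
      · right
        simp only [Set.mem_iUnion]
        refine ⟨i, ⟨h2, h3⟩, ?_⟩
        rw [if_pos h4]
        exact h5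
    refine (Cardinal.mk_le_mk_of_subset hsub).trans ((Cardinal.mk_union_le _ _).trans ?_)
    have h1 : #(({c : α | c < x ∧ lev c x ≤ n} ∪ {c : α | c < x ∧ m₀ c x ≤ n} : Set α)) ≤ ν + ν := by
      refine (Cardinal.mk_union_le _ _).trans (add_le_add ?_ ?_)
      · exact (hlev n x).trans ((le_max_left _ _).trans (le_max_left _ _))
      · exact (hcard x).trans ((le_max_right _ _).trans (le_max_left _ _))
    have h2 : #(⋃ i ∈ {i : α | i < x ∧ lev i x ≤ n}, (if (a i).Countable then a i else ∅) : Set α)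
        ≤ ν * ν := by
      refine (Cardinal.mk_biUnion_le _ _).trans (mul_le_mul' ?_ (ciSup_le' ?_))
      · exact (hlev n x).trans ((le_max_left _ _).trans (le_max_left _ _))
      · intro i
        refine le_trans ?_ hνω
        rw [Cardinal.le_aleph0_iff_set_countable]
        split_ifs with h
        · exact h
        · exact Set.countable_empty
    refine (add_le_add h1 h2).trans ?_
    rw [Cardinal.mul_eq_self hνω, Cardinal.add_eq_self hνω, Cardinal.add_eq_self hνω]
  have hTlt : ∀ n c x, Relation.TransGen (Q n) c x → c < x := by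
    intro n c x h
    induction h with
    | single h => exact h.1
    | tail _ h ih => exact ih.trans h.1
  have hex : ∀ c x, c < x → ∃ n, Relation.TransGen (Q n) c x := fun c x h =>
    ⟨lev c x, Relation.TransGen.single ⟨h, Or.inl le_rfl⟩⟩
  let m : α → α → ℕ := fun c x => if h : ∃ n, Relation.TransGen (Q n) c x then Nat.find h else 0
  have hm : ∀ n c x, c < x → (m c x ≤ n ↔ Relation.TransGen (Q n) c x) := by
    intro n c x h
    have hmv : m c x = Nat.find (hex c x h) := dif_pos (hex c x h)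
    rw [hmv]
    constructor
    · intro h1
      exact Relation.TransGen.mono (fun c x => hQmono _ _ h1 c x) _ _ (Nat.find_spec (hex c x h))
    · intro h1
      exact Nat.find_min' _ h1
  have hmQ : ∀ n c x, Q n c x → m c x ≤ n := fun n c x h =>
    (hm n c x h.1).2 (Relation.TransGen.single h)
  have hmtrans : ∀ n c d x, c < d → d < x → m c d ≤ n → m d x ≤ n → m c x ≤ n := by
    intro n c d x h1 h2 h3 h4
    exact (hm n c x (h1.trans h2)).2 (((hm n c d h1).1 h3).trans ((hm n d x h2).1 h4))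
  refine ⟨m, ?_, ?_, hmtrans, ?_⟩
  · intro n
    obtain ⟨ν, hν, hν', hcard⟩ := hQcard n
    refine ⟨ν, hν, ?_⟩
    intro x
    refine le_trans (Cardinal.mk_le_mk_of_subset ?_) (transGen_card (Q n) ν hν' hcard x)
    rintro c ⟨h1, h2⟩
    exact (hm n c x h1).1 h2
  · intro c x h
    exact hmQ _ _ _ ⟨h, Or.inr (Or.inl le_rfl)⟩
  · intro g δ hg hδ hcase
    have hgδ : ∀ w, g w < δ := by
      intro w
      obtain ⟨w', -, hw'⟩ := exists_gt_of_uncountable Set.univ uncountable_W w
      exact (hg hw').trans_le (hδ.1 ⟨w', rfl⟩)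
    have hcofinal : ∀ x, x < δ → ∃ w, x < g w := by
      intro x hx
      by_contra hcon
      push Not at hcon
      have : δ ≤ x := hδ.2 (by rintro _ ⟨w, rfl⟩; exact hcon w)
      exact absurd hx (not_lt.2 this)
    rcases hcase with hcase | hcase
    · -- the supremum is not in `E`
      obtain ⟨x₀, hx₀, hx₀E⟩ : ∃ x₀, x₀ < δ ∧ ∀ z ∈ E, x₀ < z → δ ≤ z := by
        by_contra hcon
        push Not at hcon
        apply hcase
        obtain ⟨w, -, -⟩ := exists_gt_of_uncountable Set.univ uncountable_W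
          (Classical.choice (by
            by_contra hemp
            rw [not_nonempty_iff] at hemp
            exact uncountable_W (Set.countable_univ)))
        exact hE.2 δ ⟨g w, hgδ w⟩ hcon
      obtain ⟨w₀, hw₀⟩ := hcofinal x₀ hx₀
      have hnxeq : ∀ x, x₀ ≤ x → x < δ → nx x = nx x₀ := by
        intro x h1 h2
        apply le_antisymm
        · exact hnx' x _ (hnx x₀).1 (h2.trans_le (hx₀E _ (hnx x₀).1 (hnx x₀).2))
        · exact hnx' x₀ _ (hnx x).1 (h1.trans_lt (hnx x).2)
      have hU : ¬ (Set.Ici w₀).Countable := by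
        intro h
        apply uncountable_W
        refine (h.union (countable_Iio w₀)).mono ?_
        intro w _
        rcases le_or_gt w₀ w with h | h
        · exact Or.inl h
        · exact Or.inr h
      obtain ⟨n, hn⟩ := exists_uncountable_fiber (Set.Ici w₀) hU
        (fun w => ρ (e (nx x₀) (g w)))
      refine ⟨n, g '' {w | w ∈ Set.Ici w₀ ∧ ρ (e (nx x₀) (g w)) = n}, Set.image_subset_range _ _,
        ?_, ?_⟩
      · apply Set.Infinite.image hg.injective.injOn
        intro hfin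
        exact hn hfin.countable
      · rintro _ ⟨w, ⟨h1, h2⟩, rfl⟩ _ ⟨w', ⟨h1', h2'⟩, rfl⟩ hlt
        refine hmQ _ _ _ ⟨hlt, Or.inl ?_⟩
        show ρ (e (nx (g w')) (g w)) ≤ n
        rw [hnxeq (g w') (hw₀.le.trans (hg.monotone h1')) (hgδ w')]
        exact h2.le
    · -- the supremum is approachable
      obtain ⟨g', hg', hδ', hini⟩ := hcase
      have hgδ' : ∀ w, g' w < δ := by
        intro w
        obtain ⟨w', -, hw'⟩ := exists_gt_of_uncountable Set.univ uncountable_W w
        exact (hg' hw').trans_le (hδ'.1 ⟨w', rfl⟩)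
      have hcofinal' : ∀ x, x < δ → ∃ w, x < g' w := by
        intro x hx
        by_contra hcon
        push Not at hcon
        have : δ ≤ x := hδ'.2 (by rintro _ ⟨w, rfl⟩; exact hcon w)
        exact absurd hx (not_lt.2 this)
      choose i hi hai using hini
      have hh : ∀ ν, ∃ w, max (i ν) (g' ν) < g w := fun ν =>
        hcofinal _ (max_lt (hi ν) (hgδ' ν))
      choose h hh' using hh
      have ht : ∀ ν, ∃ w, g (h ν) < g' w := fun ν => hcofinal' _ (hgδ (h ν))
      choose t ht' using ht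
      obtain ⟨n₁, hn₁⟩ := exists_uncountable_fiber Set.univ uncountable_W
        (fun ν => lev (i ν) (g (h ν)))
      obtain ⟨n₂, hn₂⟩ := exists_uncountable_fiber _ hn₁ (fun ν => m (g (h ν)) (g' (t ν)))
      set U : Set W := {ν | ν ∈ {ν | ν ∈ Set.univ ∧ lev (i ν) (g (h ν)) = n₁} ∧
        m (g (h ν)) (g' (t ν)) = n₂} with hUdef
      have hstep : ∀ τ : W, ∃ u ∈ U, τ < u := fun τ => exists_gt_of_uncountable U hn₂ τ
      choose s hsU hs using hstep
      have hne : Nonempty W := by
        by_contra hemp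
        rw [not_nonempty_iff] at hemp
        exact uncountable_W Set.countable_univ
      let q : ℕ → W := fun k => Nat.rec (s (Classical.arbitrary W)) (fun _ w => s (t w)) k
      have hq1 : ∀ k, q (k + 1) = s (t (q k)) := fun k => rfl
      have hqU : ∀ k, q k ∈ U := by
        intro k
        cases k with
        | zero => exact hsU _
        | succ k => exact hsU _
      have htq : ∀ k, t (q k) < q (k + 1) := fun k => hs _
      have hgq : ∀ ν, g' ν < g (h ν) := fun ν => (le_max_right _ _).trans_lt (hh' ν)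
      have hqt : ∀ ν, ν < t ν := by
        intro ν
        exact hg'.lt_iff_lt.1 ((hgq ν).trans (ht' ν))
      have hqmono : StrictMono q := strictMono_nat_of_lt_succ fun k => (hqt _).trans (htq k)
      have hJmono : StrictMono (fun k => g (h (q k))) := by
        apply strictMono_nat_of_lt_succ
        intro k
        exact (ht' _).trans ((hg' (htq k)).trans (hgq _))
      have hbd : ∀ k k', k < k' → m (g (h (q k))) (g (h (q k'))) ≤ max n₁ n₂ := by
        intro k k' hk
        have h1 : t (q k) < q k' := (htq k).trans_le (hqmono.monotone hk)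
        have h2 : g' (t (q k)) < g (h (q k')) := (hg' h1).trans (hgq _)
        refine hmtrans (max n₁ n₂) _ (g' (t (q k))) _ (ht' _) h2 ?_ ?_
        · exact (hqU k).2.le.trans (le_max_right _ _)
        · refine (hmQ n₁ _ _ ⟨h2, Or.inr (Or.inr ⟨i (q k'), ?_, ?_, ?_, ?_⟩)⟩).trans
            (le_max_left _ _)
          · exact (le_max_left _ _).trans_lt (hh' _)
          · exact (hqU k').1.2.le
          · rw [hai]
            exact (countable_Iio _).image _
          · rw [hai]
            exact ⟨t (q k), h1, rfl⟩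
      refine ⟨max n₁ n₂, Set.range (fun k => g (h (q k))), ?_, ?_, ?_⟩
      · rintro _ ⟨k, rfl⟩
        exact ⟨h (q k), rfl⟩
      · exact Set.infinite_range_of_injective hJmono.injective
      · rintro _ ⟨k, rfl⟩ _ ⟨k', rfl⟩ hlt
        exact hbd k k' (hJmono.lt_iff_lt.1 hlt)

/-- Interleaving. -/
theorem exists_bounded_of_interleave {α : Type} [LinearOrder α]
    (m : α → α → ℕ)
    (hmtrans : ∀ n c d x, c < d → d < x → m c d ≤ n → m d x ≤ n → m c x ≤ n)
    (g g' : W → α) (δ : α) (hg : StrictMono g) (hδ : IsLUB (Set.range g) δ)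
    (hg' : StrictMono g') (hδ' : IsLUB (Set.range g') δ) (N : ℕ)
    (hN : ∀ x ∈ Set.range g', ∀ y ∈ Set.range g', x < y → m x y ≤ N) :
    ∃ n, ∃ J : Set α, J ⊆ Set.range g ∧ J.Infinite ∧ ∀ x ∈ J, ∀ y ∈ J, x < y → m x y ≤ n := by
  have hgδ : ∀ w, g w < δ := by
    intro w
    obtain ⟨w', -, hw'⟩ := exists_gt_of_uncountable Set.univ uncountable_W w
    exact (hg hw').trans_le (hδ.1 ⟨w', rfl⟩)
  have hcofinal : ∀ x, x < δ → ∃ w, x < g w := by
    intro x hx
    by_contra hcon
    push Not at hcon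
    have : δ ≤ x := hδ.2 (by rintro _ ⟨w, rfl⟩; exact hcon w)
    exact absurd hx (not_lt.2 this)
  have hgδ' : ∀ w, g' w < δ := by
    intro w
    obtain ⟨w', -, hw'⟩ := exists_gt_of_uncountable Set.univ uncountable_W w
    exact (hg' hw').trans_le (hδ'.1 ⟨w', rfl⟩)
  have hcofinal' : ∀ x, x < δ → ∃ w, x < g' w := by
    intro x hx
    by_contra hcon
    push Not at hcon
    have : δ ≤ x := hδ'.2 (by rintro _ ⟨w, rfl⟩; exact hcon w)
    exact absurd hx (not_lt.2 this)
  have hh : ∀ ν, ∃ w, g' ν < g w := fun ν => hcofinal _ (hgδ' ν)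
  choose h hgq using hh
  have ht : ∀ ν, ∃ w, g (h ν) < g' w := fun ν => hcofinal' _ (hgδ (h ν))
  choose t ht' using ht
  obtain ⟨n₁, hn₁⟩ := exists_uncountable_fiber Set.univ uncountable_W
    (fun ν => m (g' ν) (g (h ν)))
  obtain ⟨n₂, hn₂⟩ := exists_uncountable_fiber _ hn₁ (fun ν => m (g (h ν)) (g' (t ν)))
  set U : Set W := {ν | ν ∈ {ν | ν ∈ Set.univ ∧ m (g' ν) (g (h ν)) = n₁} ∧
    m (g (h ν)) (g' (t ν)) = n₂} with hUdef
  have hstep : ∀ τ : W, ∃ u ∈ U, τ < u := fun τ => exists_gt_of_uncountable U hn₂ τ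
  choose s hsU hs using hstep
  have hne : Nonempty W := by
    by_contra hemp
    rw [not_nonempty_iff] at hemp
    exact uncountable_W Set.countable_univ
  let q : ℕ → W := fun k => Nat.rec (s (Classical.arbitrary W)) (fun _ w => s (t w)) k
  have hqU : ∀ k, q k ∈ U := by
    intro k
    cases k with
    | zero => exact hsU _
    | succ k => exact hsU _
  have htq : ∀ k, t (q k) < q (k + 1) := fun k => hs _
  have hqt : ∀ ν, ν < t ν := by
    intro ν
    exact hg'.lt_iff_lt.1 ((hgq ν).trans (ht' ν))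
  have hqmono : StrictMono q := strictMono_nat_of_lt_succ fun k => (hqt _).trans (htq k)
  have hJmono : StrictMono (fun k => g (h (q k))) := by
    apply strictMono_nat_of_lt_succ
    intro k
    exact (ht' _).trans ((hg' (htq k)).trans (hgq _))
  have hbd : ∀ k k', k < k' → m (g (h (q k))) (g (h (q k'))) ≤ max (max n₁ n₂) N := by
    intro k k' hk
    have h1 : t (q k) < q k' := (htq k).trans_le (hqmono.monotone hk)
    have h2 : g' (t (q k)) < g (h (q k')) := (hg' h1).trans (hgq _)
    refine hmtrans _ _ (g' (t (q k))) _ (ht' _) h2 ?_ ?_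
    · exact (hqU k).2.le.trans ((le_max_right _ _).trans (le_max_left _ _))
    · refine hmtrans _ _ (g' (q k')) _ (hg' h1) (hgq _) ?_ ?_
      · exact (hN _ ⟨_, rfl⟩ _ ⟨_, rfl⟩ (hg' h1)).trans (le_max_right _ _)
      · exact (hqU k').1.2.le.trans ((le_max_left _ _).trans (le_max_left _ _))
  refine ⟨max (max n₁ n₂) N, Set.range (fun k => g (h (q k))), ?_, ?_, ?_⟩
  · rintro _ ⟨k, rfl⟩
    exact ⟨h (q k), rfl⟩
  · exact Set.infinite_range_of_injective hJmono.injective
  · rintro _ ⟨k, rfl⟩ _ ⟨k', rfl⟩ hlt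
    exact hbd k k' (hJmono.lt_iff_lt.1 hlt)

end Colouring

section ErdosRado

/-- The relation `(2^ℵ₀)⁺ → (ω₁)²_ω` of Erdős and Rado. -/
theorem erdos_rado {β : Type} [LinearOrder β] [WellFoundedLT β]
    (hβ : (2 : Cardinal.{0}) ^ (ℵ₀ : Cardinal.{0}) < #β) (m : β → β → ℕ) :
    ∃ n, ∃ H : Set β, ¬ H.Countable ∧ ∀ x ∈ H, ∀ y ∈ H, x < y → m x y = n := by
  classical
  let F : ∀ c : β, (∀ d, d < c → Set β) → Set β := fun c rec =>
    {d | ∃ h : d < c, ∀ e ∈ rec d h, m e d = m e c}
  let P : β → Set β := WellFounded.fix (wellFounded_lt (α := β)) F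
  have hPeq : ∀ c, P c = F c (fun d _ => P d) := fun c =>
    WellFounded.fix_eq (wellFounded_lt (α := β)) F c
  have hP : ∀ c d, d ∈ P c ↔ d < c ∧ ∀ e ∈ P d, m e d = m e c := by
    intro c d
    rw [hPeq c]
    constructor
    · rintro ⟨h1, h2⟩
      exact ⟨h1, h2⟩
    · rintro ⟨h1, h2⟩
      exact ⟨h1, h2⟩
  have htrans : ∀ c d e, e ∈ P d → d ∈ P c → e ∈ P c := by
    intro c
    induction c using WellFoundedLT.induction with
    | ind c ih =>
      intro d e he hd
      have hd' := (hP c d).1 hd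
      have he' := (hP d e).1 he
      refine (hP c e).2 ⟨he'.1.trans hd'.1, ?_⟩
      intro f hf
      rw [he'.2 f hf]
      exact hd'.2 f (ih d hd'.1 e f hf he)
  have hlin : ∀ c e, e ∈ P c → ∀ d, d ∈ P c → e < d → e ∈ P d := by
    intro c e
    induction e using WellFoundedLT.induction with
    | ind e ih =>
      intro he d hd hed
      refine (hP d e).2 ⟨hed, ?_⟩
      intro f hf
      have hfe : f < e := ((hP e f).1 hf).1
      have hfc : f ∈ P c := htrans c e f hf he
      have hfd : f ∈ P d := ih f hfe hfc d hd (hfe.trans hed)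
      rw [((hP c e).1 he).2 f hf, ((hP c d).1 hd).2 f hfd]
  have huniq : ∀ c c', P c = P c' → (∀ e ∈ P c, m e c = m e c') → c = c' := by
    intro c c' h1 h2
    rcases lt_trichotomy c c' with h | h | h
    · exfalso
      have h3 : c ∈ P c' := (hP c' c).2 ⟨h, h2⟩
      rw [← h1] at h3
      exact lt_irrefl c ((hP c c).1 h3).1
    · exact h
    · exfalso
      have h3 : c' ∈ P c := by
        refine (hP c c').2 ⟨h, ?_⟩
        intro e he
        exact (h2 e (by rw [h1]; exact he)).symm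
      rw [h1] at h3
      exact lt_irrefl c' ((hP c' c').1 h3).1
  have hPe : ∀ c e, e ∈ P c → ∀ f, f ∈ P e ↔ f ∈ P c ∧ f < e := by
    intro c e he f
    constructor
    · intro hf
      exact ⟨htrans c e f hf he, ((hP e f).1 hf).1⟩
    · rintro ⟨h1, h2⟩
      exact hlin c f h1 e he h2
  -- some `P c` is uncountable
  have hunc : ∃ c, ¬ (P c).Countable := by
    by_contra hcon
    push Not at hcon
    have hj : ∀ c, ∃ j : β → ℕ, Set.InjOn j (P c) := fun c =>
      Set.countable_iff_exists_injOn.1 (hcon c)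
    choose j hj using hj
    let code : β → Set (ℕ × ℕ) × Set (ℕ × ℕ) := fun c =>
      ({p | ∃ e ∈ P c, ∃ d ∈ P c, e ≤ d ∧ j c e = p.1 ∧ j c d = p.2},
        {p | ∃ e ∈ P c, j c e = p.1 ∧ m e c = p.2})
    have hcode : Function.Injective code := by
      intro c c' hcc
      have hc1 : {p : ℕ × ℕ | ∃ e ∈ P c, ∃ d ∈ P c, e ≤ d ∧ j c e = p.1 ∧ j c d = p.2} =
          {p : ℕ × ℕ | ∃ e ∈ P c', ∃ d ∈ P c', e ≤ d ∧ j c' e = p.1 ∧ j c' d = p.2} :=
        congrArg Prod.fst hcc
      have hc2 : {p : ℕ × ℕ | ∃ e ∈ P c, j c e = p.1 ∧ m e c = p.2} =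
          {p : ℕ × ℕ | ∃ e ∈ P c', j c' e = p.1 ∧ m e c' = p.2} :=
        congrArg Prod.snd hcc
      -- the correspondence
      have hφ : ∀ e ∈ P c, ∃ e' ∈ P c', j c' e' = j c e ∧ m e' c' = m e c := by
        intro e he
        have h1 : (j c e, m e c) ∈ {p : ℕ × ℕ | ∃ e ∈ P c, j c e = p.1 ∧ m e c = p.2} :=
          ⟨e, he, rfl, rfl⟩
        rw [hc2] at h1
        obtain ⟨e', he', h2, h3⟩ := h1
        exact ⟨e', he', h2, h3⟩
      have hψ : ∀ e ∈ P c', ∃ e' ∈ P c, j c e' = j c' e ∧ m e' c = m e c' := by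
        intro e he
        have h1 : (j c' e, m e c') ∈ {p : ℕ × ℕ | ∃ e ∈ P c', j c' e = p.1 ∧ m e c' = p.2} :=
          ⟨e, he, rfl, rfl⟩
        rw [← hc2] at h1
        obtain ⟨e', he', h2, h3⟩ := h1
        exact ⟨e', he', h2, h3⟩
      have hord : ∀ e ∈ P c, ∀ d ∈ P c, ∀ e' ∈ P c', ∀ d' ∈ P c', j c' e' = j c e →
          j c' d' = j c d → (e ≤ d ↔ e' ≤ d') := by
        intro e he d hd e' he' d' hd' h1 h2
        constructor
        · intro hed
          have h3 : (j c e, j c d) ∈ {p : ℕ × ℕ | ∃ e ∈ P c, ∃ d ∈ P c, e ≤ d ∧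
              j c e = p.1 ∧ j c d = p.2} := ⟨e, he, d, hd, hed, rfl, rfl⟩
          rw [hc1] at h3
          obtain ⟨u, hu, v, hv, huv, h4, h5⟩ := h3
          have h6 : u = e' := hj c' hu he' (h4.trans h1.symm)
          have h7 : v = d' := hj c' hv hd' (h5.trans h2.symm)
          rw [← h6, ← h7]
          exact huv
        · intro hed
          have h3 : (j c' e', j c' d') ∈ {p : ℕ × ℕ | ∃ e ∈ P c', ∃ d ∈ P c', e ≤ d ∧
              j c' e = p.1 ∧ j c' d = p.2} := ⟨e', he', d', hd', hed, rfl, rfl⟩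
          rw [← hc1] at h3
          obtain ⟨u, hu, v, hv, huv, h4, h5⟩ := h3
          have h6 : u = e := hj c hu he (h4.trans h1)
          have h7 : v = d := hj c hv hd (h5.trans h2)
          rw [← h6, ← h7]
          exact huv
      -- the correspondence is the identity
      have hid : ∀ e, e ∈ P c → ∀ e' ∈ P c', j c' e' = j c e → e' = e := by
        intro e
        induction e using WellFoundedLT.induction with
        | ind e ih =>
          intro he e' he' hee
          have hsame : ∀ f, f ∈ P e ↔ f ∈ P e' := by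
            intro f
            rw [hPe c e he f, hPe c' e' he' f]
            constructor
            · rintro ⟨h1, h2⟩
              obtain ⟨f', hf', h3, h4⟩ := hφ f h1
              have h5 : f' = f := ih f h2 h1 f' hf' h3
              subst h5
              refine ⟨hf', ?_⟩
              have h6 := hord e he f' h1 e' he' f' hf' hee h3
              exact not_le.1 (fun h => absurd (h6.2 h) (not_le.2 h2))
            · rintro ⟨h1, h2⟩
              obtain ⟨f', hf', h3, h4⟩ := hψ f h1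
              have h6 := hord e he f' hf' e' he' f h1 hee h3.symm
              have h7 : f' < e := not_le.1 (fun h => absurd (h6.1 h) (not_le.2 h2))
              have h5 : f = f' := ih f' h7 hf' f h1 h3.symm
              subst h5
              exact ⟨hf', h7⟩
          refine (huniq e e' (Set.ext hsame) ?_).symm
          intro f hf
          have hfe' : f ∈ P e' := (hsame f).1 hf
          have hfc := (hPe c e he f).1 hf
          have hfc' := (hPe c' e' he' f).1 hfe'
          rw [((hP c e).1 he).2 f hf, ((hP c' e').1 he').2 f hfe']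
          obtain ⟨f', hf', h3, h4⟩ := hφ f hfc.1
          have h5 : f' = f := ih f hfc.2 hfc.1 f' hf' h3
          subst h5
          exact h4.symm
      apply huniq c c'
      · ext e
        constructor
        · intro he
          obtain ⟨e', he', h1, h2⟩ := hφ e he
          rw [← hid e he e' he' h1]
          exact he'
        · intro he
          obtain ⟨e', he', h1, h2⟩ := hψ e he
          rw [hid e' he' e he h1.symm]
          exact he'
      · intro e he
        obtain ⟨e', he', h1, h2⟩ := hφ e he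
        rw [← h2, hid e he e' he' h1]
    have hle : #β ≤ #(Set (ℕ × ℕ) × Set (ℕ × ℕ)) := Cardinal.mk_le_of_injective hcode
    have hcont : #(Set (ℕ × ℕ) × Set (ℕ × ℕ)) = 2 ^ (ℵ₀ : Cardinal.{0}) := by
      rw [Cardinal.mk_prod, Cardinal.mk_set, Cardinal.mk_prod, Cardinal.mk_nat]
      simp only [Cardinal.lift_id]
      rw [Cardinal.aleph0_mul_aleph0, ← Cardinal.power_add, Cardinal.aleph0_add_aleph0]
    rw [hcont] at hle
    exact absurd hle (not_le.2 hβ)
  obtain ⟨c, hc⟩ := hunc
  have hfib : ∃ n, ¬ {e : β | e ∈ P c ∧ m e c = n}.Countable := by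
    by_contra hcon
    push Not at hcon
    apply hc
    refine Set.Countable.mono ?_ (Set.countable_iUnion hcon)
    intro e he
    exact Set.mem_iUnion.2 ⟨m e c, he, rfl⟩
  obtain ⟨n, hn⟩ := hfib
  refine ⟨n, _, hn, ?_⟩
  rintro x ⟨hx, hxn⟩ y ⟨hy, hyn⟩ hxy
  rw [((hP c y).1 hy).2 x (hlin c x hx y hy hxy)]
  exact hxn

/-- An uncountable set contains an increasing `ω₁`-sequence. -/
theorem exists_omega_one_seq {α : Type} [LinearOrder α] [WellFoundedLT α] (H : Set α)
    (hH : ¬ H.Countable) : ∃ g : W → α, StrictMono g ∧ ∀ w, g w ∈ H := by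
  have h1 : Cardinal.aleph 1 ≤ #H := by
    rw [← Cardinal.succ_aleph0, Order.succ_le_iff]
    by_contra hcon
    exact hH (Cardinal.le_aleph0_iff_set_countable.1 (not_lt.1 hcon))
  have h2 : (Cardinal.aleph 1 : Cardinal.{0}).ord ≤ Ordinal.type (α := H) (· < ·) := by
    rw [Cardinal.ord_le, Ordinal.card_type]
    exact h1
  rw [← Ordinal.type_toType (Cardinal.aleph 1 : Cardinal.{0}).ord, Ordinal.type_le_iff'] at h2
  obtain ⟨f⟩ := h2
  exact ⟨fun w => (f w : H), fun w w' hw => f.map_rel_iff.2 hw, fun w => (f w).2⟩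

end ErdosRado

/-- Fewer than `l⁺` points do not form an unbounded set. -/
theorem not_unbounded {l : Cardinal.{0}} {α : Type} [LinearOrder α] (hl : ℵ₀ < l)
    (hα : #α = Order.succ l) (hI : ∀ x : α, #(Set.Iio x) ≤ l) (C : Set α)
    (hC : ∀ x : α, ∃ e ∈ C, x < e) : l < #C := by
  by_contra hcon
  rw [not_lt] at hcon
  have hsub : (Set.univ : Set α) ⊆ ⋃ e ∈ C, Set.Iio e := by
    intro x _
    obtain ⟨e, he, hxe⟩ := hC x
    simp only [Set.mem_iUnion]
    exact ⟨e, he, hxe⟩
  have h1 := (Cardinal.mk_le_mk_of_subset hsub).trans (Cardinal.mk_biUnion_le _ _)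
  rw [Cardinal.mk_univ, hα] at h1
  have h2 : #C * (⨆ e : C, #(Set.Iio e.1)) ≤ l * l :=
    mul_le_mul' hcon (ciSup_le' fun e => hI e.1)
  rw [Cardinal.mul_eq_self hl.le] at h2
  exact absurd (h1.trans h2) (not_le.2 (Order.lt_succ l))

/-- Increasing `ω₁`-sequences have suprema. -/
theorem exists_lub {l : Cardinal.{0}} {α : Type} [LinearOrder α] [WellFoundedLT α] (hl : ℵ₀ < l)
    (hα : #α = Order.succ l) (hI : ∀ x : α, #(Set.Iio x) ≤ l) (g : W → α) (hg : StrictMono g) :
    ∃ δ, IsLUB (Set.range g) δ := by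
  have hbdd : (upperBounds (Set.range g)).Nonempty := by
    by_contra hcon
    have h1 : ∀ x : α, ∃ e ∈ Set.range g, x < e := by
      intro x
      by_contra h
      push Not at h
      exact hcon ⟨x, fun y hy => h y hy⟩
    have h2 := not_unbounded hl hα hI (Set.range g) h1
    have h3 : #(Set.range g) ≤ Cardinal.aleph 1 := by
      rw [← mk_W]
      exact Cardinal.mk_range_le
    have h4 : Cardinal.aleph 1 ≤ l := by
      rw [← Cardinal.succ_aleph0]
      exact Order.succ_le_of_lt hl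
    exact absurd (h3.trans h4) (not_le.2 h2)
  refine ⟨WellFounded.min wellFounded_lt _ hbdd, ?_, ?_⟩
  · exact WellFounded.min_mem wellFounded_lt _ hbdd
  · intro x hx
    exact not_lt.1 (WellFounded.not_lt_min wellFounded_lt _ hx)

/-- Let `λ = l` have cofinality `ω < λ`, `2^λ = λ⁺` and `2^ℵ₀ < λ` (all true under GCH), and let
`α` be a well-ordered set of order type `κ = λ⁺`.  For every normal `m₀`, every sequence `a` of
subsets and every closed unbounded `E` there is one partition of `κ × κ` with no `κ × λ` rectangle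
in the first colour such that infinite `m₀`-bounded sets of rows, and all increasing
`ω₁`-sequences of rows whose supremum is outside `E` or is approachable with respect to `a`, have
fewer than `λ` common points of the second colour, and so do, for stationarily many `δ` of
cofinality `ω₁`, all increasing `ω₁`-sequences of rows with supremum `δ`.  In particular, if the
relation of Q1 holds, then the approachability property fails at `λ`, at cofinality `ω₁`. -/
theorem result (l : Cardinal.{0}) (hl : ℵ₀ < l) (hcof : l.ord.cof = ℵ₀)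
    (h2 : (2 : Cardinal.{0}) ^ l = Order.succ l) (h0 : (2 : Cardinal.{0}) ^ (ℵ₀ : Cardinal.{0}) < l)
    (α : Type) [LinearOrder α] [WellFoundedLT α] (hα : #α = Order.succ l)
    (hI : ∀ x : α, #(Set.Iio x) ≤ l)
    (m₀ : α → α → ℕ) (hm₀ : Normal l m₀) (a : α → Set α) (E : Set α) (hE : IsClubSet E) :
    (∃ Δ : Set (α × α),
      (∀ H₁ H₂ : Set α, #H₁ = Order.succ l → #H₂ = l → ∃ x ∈ H₁, ∃ y ∈ H₂, (x, y) ∉ Δ) ∧
      (∀ n : ℕ, ∃ μ : Cardinal.{0}, μ < l ∧ ∀ J : Set α, J.Infinite →
        (∀ x ∈ J, ∀ y ∈ J, x < y → m₀ x y ≤ n) → #{y : α | ∀ x ∈ J, (x, y) ∉ Δ} ≤ μ) ∧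
      (∀ (g : (Cardinal.aleph 1 : Cardinal.{0}).ord.ToType → α) (δ : α),
        StrictMono g → IsLUB (Set.range g) δ → (δ ∉ E ∨ ApproachableAt a δ) →
          #{y : α | ∀ ν, (g ν, y) ∉ Δ} < l) ∧
      (∀ C : Set α, IsClubSet C → ∃ δ ∈ C,
        (∃ g : (Cardinal.aleph 1 : Cardinal.{0}).ord.ToType → α,
          StrictMono g ∧ IsLUB (Set.range g) δ) ∧
        ∀ g : (Cardinal.aleph 1 : Cardinal.{0}).ord.ToType → α,
          StrictMono g → IsLUB (Set.range g) δ → #{y : α | ∀ ν, (g ν, y) ∉ Δ} < l)) ∧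
    (PolarizedRelation l α →
      ∃ (g : (Cardinal.aleph 1 : Cardinal.{0}).ord.ToType → α) (δ : α),
        StrictMono g ∧ IsLUB (Set.range g) δ ∧ δ ∈ E ∧ ¬ ApproachableAt a δ ∧
        ∀ (n : ℕ) (J : Set α), J ⊆ Set.range g → J.Infinite →
          ∃ x ∈ J, ∃ y ∈ J, x < y ∧ n < m₀ x y) := by
  obtain ⟨m, hm, hmm₀, hmtrans, hmbd⟩ := exists_colouring hl hcof hI m₀ hm₀ a E hE
  obtain ⟨Δ, h1, hJ⟩ := exists_partition hl h2 hα hI m hm
  have hsmall : ∀ g : W → α, (∃ n, ∃ J : Set α, J ⊆ Set.range g ∧ J.Infinite ∧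
      ∀ x ∈ J, ∀ y ∈ J, x < y → m x y ≤ n) → #{y : α | ∀ ν, (g ν, y) ∉ Δ} < l := by
    rintro g ⟨n, J, hJg, hJinf, hJm⟩
    obtain ⟨μ, hμ, hcard⟩ := hJ n
    refine lt_of_le_of_lt (le_trans (Cardinal.mk_le_mk_of_subset ?_) (hcard J hJinf hJm)) hμ
    intro y hy x hx
    obtain ⟨ν, rfl⟩ := hJg hx
    exact hy ν
  have hA : ∀ n : ℕ, ∃ μ : Cardinal.{0}, μ < l ∧ ∀ J : Set α, J.Infinite →
        (∀ x ∈ J, ∀ y ∈ J, x < y → m₀ x y ≤ n) → #{y : α | ∀ x ∈ J, (x, y) ∉ Δ} ≤ μ := by
    intro n
    obtain ⟨μ, hμ, hcard⟩ := hJ n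
    exact ⟨μ, hμ, fun J hJinf hJm => hcard J hJinf
      (fun x hx y hy hxy => (hmm₀ x y hxy).trans (hJm x hx y hy hxy))⟩
  have hB : ∀ (g : W → α) (δ : α),
        StrictMono g → IsLUB (Set.range g) δ → (δ ∉ E ∨ ApproachableAt a δ) →
          #{y : α | ∀ ν, (g ν, y) ∉ Δ} < l := fun g δ hg hδ hc =>
    hsmall g (hmbd g δ hg hδ hc)
  refine ⟨⟨Δ, h1, hA, hB, ?_⟩, ?_⟩
  · intro C hC
    have hCl : l < #C := not_unbounded hl hα hI C hC.1
    obtain ⟨n, H, hH, hHm⟩ := erdos_rado (β := C) (h0.trans hCl) (fun x y => m x.1 y.1)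
    obtain ⟨g₁, hg₁, hg₁H⟩ := exists_omega_one_seq H hH
    have hg₀ : StrictMono (fun w => (g₁ w : α)) := fun w w' hw => hg₁ hw
    obtain ⟨δ, hδ⟩ := exists_lub hl hα hI (fun w => (g₁ w : α)) hg₀
    have hgδ : ∀ w, (g₁ w : α) < δ := by
      intro w
      obtain ⟨w', -, hw'⟩ := exists_gt_of_uncountable Set.univ uncountable_W w
      exact (hg₀ hw').trans_le (hδ.1 ⟨w', rfl⟩)
    have hne : Nonempty W := by
      by_contra hemp
      rw [not_nonempty_iff] at hemp
      exact uncountable_W Set.countable_univ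
    have hδC : δ ∈ C := by
      apply hC.2 δ ⟨_, hgδ (Classical.arbitrary W)⟩
      intro x hx
      by_contra hcon
      push Not at hcon
      have : δ ≤ x := hδ.2 (by
        rintro _ ⟨w, rfl⟩
        by_contra hlt
        rw [not_le] at hlt
        exact absurd (hgδ w) (not_lt.2 (hcon _ (g₁ w).2 hlt)))
      exact absurd hx (not_lt.2 this)
    refine ⟨δ, hδC, ⟨_, hg₀, hδ⟩, ?_⟩
    intro g hg hgδ'
    apply hsmall
    refine exists_bounded_of_interleave m hmtrans g (fun w => (g₁ w : α)) δ hg hgδ' hg₀ hδ n ?_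
    rintro _ ⟨w, rfl⟩ _ ⟨w', rfl⟩ hlt
    exact (hHm _ (hg₁H w) _ (hg₁H w') hlt).le
  · intro hrel
    rcases hrel Δ with ⟨H₁, H₂, hH₁, hH₂, hH⟩ | ⟨H₁, H₂, hH₁, hH₂, hH⟩
    · exfalso
      obtain ⟨x, hx, y, hy, hxy⟩ := h1 H₁ H₂ hH₁ hH₂
      exact hxy (hH x hx y hy)
    · have hunc : ¬ H₁.Countable := by
        intro hc
        rw [← Cardinal.le_aleph0_iff_set_countable, hH₁] at hc
        exact absurd hc (not_le.2 Cardinal.aleph0_lt_aleph_one)
      obtain ⟨g, hg, hgH⟩ := exists_omega_one_seq H₁ hunc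
      obtain ⟨δ, hδ⟩ := exists_lub hl hα hI g hg
      have hlarge : l ≤ #{y : α | ∀ ν, (g ν, y) ∉ Δ} := by
        rw [← hH₂]
        exact Cardinal.mk_le_mk_of_subset (fun y hy ν => hH _ (hgH ν) _ hy)
      refine ⟨g, δ, hg, hδ, ?_, ?_, ?_⟩
      · by_contra hδE
        exact absurd hlarge (not_le.2 (hB g δ hg hδ (Or.inl hδE)))
      · intro hap
        exact absurd hlarge (not_le.2 (hB g δ hg hδ (Or.inr hap)))
      · intro n J hJg hJinf
        by_contra hcon
        push Not at hcon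
        obtain ⟨μ, hμ, hcard⟩ := hA n
        have h3 := hcard J hJinf hcon
        refine absurd (hlarge.trans (le_trans (Cardinal.mk_le_mk_of_subset ?_) h3)) (not_le.2 hμ)
        intro y hy x hx
        obtain ⟨ν, rfl⟩ := hJg hx
        exact hy ν

end Pool.Agent.Results.MP_d40573_lc.Approachability
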